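import Mathlib
import Pool.Agent.Y279.PA3

set_option autoImplicit false

namespace Pool.Agent.Results.MP_e9a5f2_an.ConditionalPropertyA

open Filter Topology

variable {𝕜 : Type} [RCLike 𝕜] {X : Type} [NormedAddCommGroup X] [NormedSpace 𝕜 X]

/-- Semi-normalized Markushevich basis with coordinate functionals `xs`. -/
def IsMBasis (x : ℕ → X) (xs : ℕ → (X →L[𝕜] 𝕜)) : Prop :=
  (∀ n j : ℕ, xs n (x j) = if n = j then 1 else 0) ∧
    Dense (Submodule.span 𝕜 (Set.range x) : Set X) ∧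
    (∀ v : X, (∀ n, xs n v = 0) → v = 0) ∧
    ∃ C : ℝ, ∀ n, ‖x n‖ ≤ C ∧ ‖xs n‖ ≤ C

/-- Property (A): symmetry for largest coefficients. -/
def PropertyA (x : ℕ → X) (xs : ℕ → (X →L[𝕜] 𝕜)) : Prop :=
  ∀ (v : X) (A B : Finset ℕ) (ε η : ℕ → 𝕜), (∀ n, ‖xs n v‖ ≤ 1) → A.card = B.card →
    Disjoint A B → (∀ n ∈ A ∪ B, xs n v = 0) → (∀ n ∈ A, ‖ε n‖ = 1) → (∀ n ∈ B, ‖η n‖ = 1) →
      ‖v + ∑ n ∈ A, ε n • x n‖ = ‖v + ∑ n ∈ B, η n • x n‖

/-- Unconditional basis: every expansion converges unconditionally (`HasSum` is convergence of the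
net of finite partial sums). -/
def IsUnconditional (x : ℕ → X) (xs : ℕ → (X →L[𝕜] 𝕜)) : Prop :=
  ∀ v : X, HasSum (fun n => xs n v • x n) v

/-- Over either scalar field there is a Banach space with a monotone Schauder basis that has
Property (A) and is not unconditional. -/
theorem result (𝕜 : Type) [RCLike 𝕜] :
    ∃ (X : Type) (_ : NormedAddCommGroup X) (_ : NormedSpace 𝕜 X) (_ : CompleteSpace X)
      (x : ℕ → X) (xs : ℕ → (X →L[𝕜] 𝕜)),
      IsMBasis x xs ∧ PropertyA x xs ∧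
      (∀ v : X, Tendsto (fun k => ∑ n ∈ Finset.range k, xs n v • x n) atTop (𝓝 v)) ∧
      (∀ (v : X) (k : ℕ), ‖∑ n ∈ Finset.range k, xs n v • x n‖ ≤ ‖v‖) ∧
      ¬ IsUnconditional x xs := by
  refine ⟨Y279.PA.X 𝕜, inferInstance, inferInstance, inferInstance, Y279.PA.x, Y279.PA.xs,
    ⟨Y279.PA.xs_x, ?_, Y279.PA.total, 1, fun n => ⟨Y279.PA.norm_x n, Y279.PA.norm_xs n⟩⟩, ?_,
    Y279.PA.tendsto_partialSum, Y279.PA.norm_partialSum, Y279.PA.not_unconditional⟩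
  · rw [Submodule.dense_iff_topologicalClosure_eq_top]
    exact Y279.PA.span_top
  · intro v A B ε η h1 hcard hAB h0 hε hη
    have hA : ∀ n ∈ A, Y279.PA.xs n v = 0 := fun n hn => h0 n (Finset.mem_union_left _ hn)
    have hB : ∀ n ∈ B, Y279.PA.xs n v = 0 := fun n hn => h0 n (Finset.mem_union_right _ hn)
    exact le_antisymm (Y279.PA.propA v A B ε η h1 hAB hcard hA hB hε hη)
      (Y279.PA.propA v B A η ε h1 hAB.symm hcard.symm hB hA hη hε)

end Pool.Agent.Results.MP_e9a5f2_an.ConditionalPropertyA
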